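import Mathlib

/-!
MP_9999b5_co (Manickam-Miklos-Singhi): the scalar lemmas S0-S4 of helper83's scheme (helper95), real numbers only.
`s = T/(2k+T)`, `w = P(K heavy)`, `q = P(NN)`. Input (SP) is the conclusion of RBZ of `MP_9999b5_sp`:
`q² (1 - s²) ≤ w (q² - s (1+s) q + s)`; input (RF): `f (k+T) (1+q) ≤ (k+T) - k w - T q`.
-/

set_option autoImplicit false

namespace Pool.Agent.Work.MP_9999b5_sc

/-- (SP) in the variable `t = T/k`: `4(1+t) q² ≤ w D(q)`. -/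
theorem sp_t {t w q : ℝ} (ht : 0 < t)
    (h : q ^ 2 * (1 - (t / (2 + t)) ^ 2) ≤
      w * (q ^ 2 - t / (2 + t) * (1 + t / (2 + t)) * q + t / (2 + t))) :
    4 * (1 + t) * q ^ 2 ≤ w * ((2 + t) ^ 2 * q ^ 2 - 2 * t * (1 + t) * q + t * (2 + t)) := by
  have h2 : (0 : ℝ) < 2 + t := by linarith
  have h3 := mul_le_mul_of_nonneg_right h (le_of_lt (pow_pos h2 2))
  have e1 : q ^ 2 * (1 - (t / (2 + t)) ^ 2) * (2 + t) ^ 2 = 4 * (1 + t) * q ^ 2 := by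
    field_simp
    ring
  have e2 : w * (q ^ 2 - t / (2 + t) * (1 + t / (2 + t)) * q + t / (2 + t)) * (2 + t) ^ 2 =
      w * ((2 + t) ^ 2 * q ^ 2 - 2 * t * (1 + t) * q + t * (2 + t)) := by
    field_simp
    ring
  rw [e1, e2] at h3
  exact h3

theorem D_pos {t q : ℝ} (ht : 0 < t) :
    0 < (2 + t) ^ 2 * q ^ 2 - 2 * t * (1 + t) * q + t * (2 + t) := by
  have h1 : 0 ≤ ((2 + t) ^ 2 * q - t * (1 + t)) ^ 2 := sq_nonneg _
  have h2 : (0 : ℝ) < (2 + t) ^ 2 := by positivity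
  have h3 : 0 < t * (2 + t) ^ 3 - (t * (1 + t)) ^ 2 := by
    have : t * (2 + t) ^ 3 - (t * (1 + t)) ^ 2 = t * (8 + 11 * t + 4 * t ^ 2) := by ring
    rw [this]
    positivity
  have h4 : (2 + t) ^ 2 * ((2 + t) ^ 2 * q ^ 2 - 2 * t * (1 + t) * q + t * (2 + t)) =
      ((2 + t) ^ 2 * q - t * (1 + t)) ^ 2 + (t * (2 + t) ^ 3 - (t * (1 + t)) ^ 2) := by ring
  by_contra hcon
  push Not at hcon
  have h5 := mul_nonpos_of_nonneg_of_nonpos (le_of_lt h2) hcon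
  linarith

/-- QL for general `Lam`: `Lam (2+t)² q (1-q) ≥ D(q)` suffices. -/
theorem ql_gen {t w q L : ℝ} (ht : 0 < t) (hL : 0 ≤ L) (hqw : q ≤ w)
    (h : 4 * (1 + t) * q ^ 2 ≤ w * ((2 + t) ^ 2 * q ^ 2 - 2 * t * (1 + t) * q + t * (2 + t)))
    (hc : t ≤ (2 + t) * q → (2 + t) ^ 2 * q ^ 2 - 2 * t * (1 + t) * q + t * (2 + t) ≤
      L * ((2 + t) ^ 2 * (q * (1 - q)))) :
    q - t / (2 + t) ≤ L * (w - q) := by
  have h2 : (0 : ℝ) < 2 + t := by linarith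
  rcases le_total ((2 + t) * q) t with hq | hq
  · have h1 : q ≤ t / (2 + t) := by
      rw [le_div_iff₀ h2]
      linarith
    have h3 : 0 ≤ L * (w - q) := mul_nonneg hL (by linarith)
    linarith
  · have hD := D_pos (q := q) ht
    have hc' := hc hq
    have h1 : (2 + t) * (q * (1 - q) * ((2 + t) * q - t)) ≤
        (w - q) * ((2 + t) ^ 2 * q ^ 2 - 2 * t * (1 + t) * q + t * (2 + t)) := by
      nlinarith [h]
    have h4 : 0 ≤ (2 + t) * q - t := by linarith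
    have h5 := mul_le_mul_of_nonneg_right hc' h4
    have h6 := mul_le_mul_of_nonneg_left h1 (mul_nonneg hL (le_of_lt h2))
    have h7 : ((2 + t) * q - t) * ((2 + t) ^ 2 * q ^ 2 - 2 * t * (1 + t) * q + t * (2 + t)) ≤
        L * (2 + t) * (w - q) *
          ((2 + t) ^ 2 * q ^ 2 - 2 * t * (1 + t) * q + t * (2 + t)) := by
      nlinarith [h5, h6]
    have h8 : (2 + t) * q - t ≤ L * (2 + t) * (w - q) := le_of_mul_le_mul_right h7 hD
    have h9 : q - t / (2 + t) = ((2 + t) * q - t) / (2 + t) := by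
      field_simp
    rw [h9, div_le_iff₀ h2]
    linarith

/-- QL, `Lam = 8/5`, from `q ≤ 11/20`, all `t ∈ (0,1]` -/
theorem ql_85 {t w q : ℝ} (ht : 0 < t) (ht1 : t ≤ 1) (hqw : q ≤ w) (hq : q ≤ 11 / 20)
    (h : 4 * (1 + t) * q ^ 2 ≤ w * ((2 + t) ^ 2 * q ^ 2 - 2 * t * (1 + t) * q + t * (2 + t))) :
    q - t / (2 + t) ≤ 8 / 5 * (w - q) := by
  refine ql_gen ht (by norm_num) hqw h (fun hc => ?_)
  -- concave in q; (q - t/(2+t)) (11/20 - q) ≥ 0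
  have h1 : 0 ≤ ((2 + t) * q - t) * (11 / 20 - q) := mul_nonneg (by linarith) (by linarith)
  have hq0 : 0 < q := by
    by_contra hcon
    push Not at hcon
    nlinarith
  -- 8/5 (2+t)² q (1-q) - D(q) = (13/5)(2+t) ((2+t) q - t)(11/20 - q) + linear in q
  have h2 : 8 / 5 * ((2 + t) ^ 2 * (q * (1 - q))) -
      ((2 + t) ^ 2 * q ^ 2 - 2 * t * (1 + t) * q + t * (2 + t)) =
      13 / 5 * (2 + t) * (((2 + t) * q - t) * (11 / 20 - q)) +
      (8 / 5 * (2 + t) ^ 2 * q + 2 * t * (1 + t) * q - t * (2 + t) -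
        13 / 5 * (2 + t) * ((11 / 20 * (2 + t) + t) * q - 11 / 20 * t)) := by ring
  have h3 : 0 ≤ 8 / 5 * (2 + t) ^ 2 * q + 2 * t * (1 + t) * q - t * (2 + t) -
        13 / 5 * (2 + t) * ((11 / 20 * (2 + t) + t) * q - 11 / 20 * t) := by
    nlinarith [mul_nonneg (by linarith : (0 : ℝ) ≤ (2 + t) * q - t) (by linarith : (0 : ℝ) ≤ 1 - t),
      mul_nonneg (by linarith : (0 : ℝ) ≤ 11 / 20 - q) (by linarith : (0 : ℝ) ≤ 1 - t),
      mul_nonneg (mul_nonneg (by linarith : (0 : ℝ) ≤ 11 / 20 - q) ht.le)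
        (by linarith : (0 : ℝ) ≤ 1 - t), mul_pos ht hq0,
      mul_nonneg (mul_nonneg (by linarith : (0 : ℝ) ≤ (2 + t) * q - t) ht.le)
        (by linarith : (0 : ℝ) ≤ 1 - t)]
  have h4 : 0 ≤ 13 / 5 * (2 + t) * (((2 + t) * q - t) * (11 / 20 - q)) := by positivity
  linarith

/-- QL, `Lam = 5/4`, from `q ≤ 1/2`, `t ≤ 1/3` -/
theorem ql_54 {t w q : ℝ} (ht : 0 < t) (ht1 : 3 * t ≤ 1) (hqw : q ≤ w) (hq : q ≤ 1 / 2)
    (h : 4 * (1 + t) * q ^ 2 ≤ w * ((2 + t) ^ 2 * q ^ 2 - 2 * t * (1 + t) * q + t * (2 + t))) :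
    q - t / (2 + t) ≤ 5 / 4 * (w - q) := by
  refine ql_gen ht (by norm_num) hqw h (fun hc => ?_)
  have h1 : 0 ≤ ((2 + t) * q - t) * (1 / 2 - q) := mul_nonneg (by linarith) (by linarith)
  have hq0 : 0 < q := by
    by_contra hcon
    push Not at hcon
    nlinarith
  have h2 : 5 / 4 * ((2 + t) ^ 2 * (q * (1 - q))) -
      ((2 + t) ^ 2 * q ^ 2 - 2 * t * (1 + t) * q + t * (2 + t)) =
      9 / 4 * (2 + t) * (((2 + t) * q - t) * (1 / 2 - q)) +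
      (5 / 4 * (2 + t) ^ 2 * q + 2 * t * (1 + t) * q - t * (2 + t) -
        9 / 4 * (2 + t) * ((1 / 2 * (2 + t) + t) * q - 1 / 2 * t)) := by ring
  have h3 : 0 ≤ 5 / 4 * (2 + t) ^ 2 * q + 2 * t * (1 + t) * q - t * (2 + t) -
        9 / 4 * (2 + t) * ((1 / 2 * (2 + t) + t) * q - 1 / 2 * t) := by
    nlinarith [mul_nonneg (by linarith : (0 : ℝ) ≤ (2 + t) * q - t)
        (by linarith : (0 : ℝ) ≤ 1 - 3 * t),
      mul_nonneg (by linarith : (0 : ℝ) ≤ 1 / 2 - q) (by linarith : (0 : ℝ) ≤ 1 - 3 * t),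
      mul_nonneg (mul_nonneg (by linarith : (0 : ℝ) ≤ 1 / 2 - q) ht.le)
        (by linarith : (0 : ℝ) ≤ 1 - 3 * t), mul_pos ht hq0,
      mul_nonneg (mul_nonneg (by linarith : (0 : ℝ) ≤ (2 + t) * q - t) ht.le)
        (by linarith : (0 : ℝ) ≤ 1 - 3 * t)]
  have h4 : 0 ≤ 9 / 4 * (2 + t) * (((2 + t) * q - t) * (1 / 2 - q)) := by positivity
  linarith

/-- which lower bound `f` of the fraction `f_T(k+T)` is available (`t = T/k`, `t ≥ 1/3`): `t < 3/7`: `(9/40)/(1+9/40) = 9/49`;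
`t < 1/2`: `(1/4)/(1+1/4) = 1/5`; `t < 3/4`: `9/40`; `t ≤ 1`: `1/4`. -/
def FC (t f : ℝ) : Prop :=
  (1 ≤ 3 * t ∧ 7 * t ≤ 3 ∧ 9 / 49 ≤ f) ∨ (3 ≤ 7 * t ∧ 2 * t ≤ 1 ∧ 1 / 5 ≤ f) ∨
    (1 ≤ 2 * t ∧ 4 * t ≤ 3 ∧ 9 / 40 ≤ f) ∨ (3 ≤ 4 * t ∧ t ≤ 1 ∧ 1 / 4 ≤ f)

theorem hl_aux {t w q f f0 : ℝ} (ht : 0 < t) (hq0 : 0 ≤ q) (hff : f0 ≤ f)
    (h : f * (1 + t) * (1 + q) ≤ (1 + t) - w - t * q) :
    (1 - t) * (1 - q) + f0 * (1 + t) * (1 + q) ≤ 2 - w - q := by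
  have h1 : f0 * ((1 + t) * (1 + q)) ≤ f * ((1 + t) * (1 + q)) :=
    mul_le_mul_of_nonneg_right hff (by positivity)
  nlinarith

theorem hl_fin {t w q L A : ℝ} (ht : 0 < t) (hA : A ≤ 2 - w - q)
    (h : 4 * (2 + t) * (L * q) ≤ (12 + 5 * t) * A) :
    L * q ≤ 3 / 2 * (1 - t / (2 + t) / 6) * (2 - w - q) := by
  have h2 : (0 : ℝ) < 2 + t := by linarith
  have e : 3 / 2 * (1 - t / (2 + t) / 6) * (2 - w - q) =
      ((12 + 5 * t) * (2 - w - q)) / (4 * (2 + t)) := by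
    field_simp
    ring
  rw [e, le_div_iff₀ (by positivity)]
  have h3 : (12 + 5 * t) * A ≤ (12 + 5 * t) * (2 - w - q) :=
    mul_le_mul_of_nonneg_left hA (by positivity)
  linarith

/-- HL, `Lam = 8/5` -/
theorem hl_85 {t w q f : ℝ} (hq0 : 0 ≤ q) (hq : q ≤ 11 / 20) (hf : FC t f)
    (h : f * (1 + t) * (1 + q) ≤ (1 + t) - w - t * q) :
    8 / 5 * q ≤ 3 / 2 * (1 - t / (2 + t) / 6) * (2 - w - q) := by
  rcases hf with ⟨h1, h2, h3⟩ | ⟨h1, h2, h3⟩ | ⟨h1, h2, h3⟩ | ⟨h1, h2, h3⟩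
  · have ht : 0 < t := by linarith
    refine hl_fin ht (hl_aux ht hq0 h3 h) ?_
    nlinarith [mul_nonneg (by linarith : (0 : ℝ) ≤ 11 / 20 - q) (by linarith : (0 : ℝ) ≤ 3 * t - 1),
      mul_nonneg (by linarith : (0 : ℝ) ≤ 11 / 20 - q) (by linarith : (0 : ℝ) ≤ 3 - 7 * t),
      mul_nonneg (by linarith : (0 : ℝ) ≤ 3 * t - 1) (by linarith : (0 : ℝ) ≤ 3 - 7 * t),
      mul_nonneg (mul_nonneg (by linarith : (0 : ℝ) ≤ 11 / 20 - q) ht.le)
        (by linarith : (0 : ℝ) ≤ 3 - 7 * t),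
      mul_nonneg (mul_nonneg (by linarith : (0 : ℝ) ≤ 11 / 20 - q)
        (by linarith : (0 : ℝ) ≤ 3 * t - 1)) (by linarith : (0 : ℝ) ≤ 3 - 7 * t)]
  · have ht : 0 < t := by linarith
    refine hl_fin ht (hl_aux ht hq0 h3 h) ?_
    nlinarith [mul_nonneg (by linarith : (0 : ℝ) ≤ 11 / 20 - q) (by linarith : (0 : ℝ) ≤ 7 * t - 3),
      mul_nonneg (by linarith : (0 : ℝ) ≤ 11 / 20 - q) (by linarith : (0 : ℝ) ≤ 1 - 2 * t),
      mul_nonneg (by linarith : (0 : ℝ) ≤ 7 * t - 3) (by linarith : (0 : ℝ) ≤ 1 - 2 * t),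
      mul_nonneg (mul_nonneg (by linarith : (0 : ℝ) ≤ 11 / 20 - q)
        (by linarith : (0 : ℝ) ≤ 7 * t - 3)) (by linarith : (0 : ℝ) ≤ 1 - 2 * t)]
  · have ht : 0 < t := by linarith
    refine hl_fin ht (hl_aux ht hq0 h3 h) ?_
    nlinarith [mul_nonneg (by linarith : (0 : ℝ) ≤ 11 / 20 - q) (by linarith : (0 : ℝ) ≤ 2 * t - 1),
      mul_nonneg (by linarith : (0 : ℝ) ≤ 11 / 20 - q) (by linarith : (0 : ℝ) ≤ 3 - 4 * t),
      mul_nonneg (by linarith : (0 : ℝ) ≤ 2 * t - 1) (by linarith : (0 : ℝ) ≤ 3 - 4 * t),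
      mul_nonneg (mul_nonneg (by linarith : (0 : ℝ) ≤ 11 / 20 - q)
        (by linarith : (0 : ℝ) ≤ 2 * t - 1)) (by linarith : (0 : ℝ) ≤ 3 - 4 * t)]
  · have ht : 0 < t := by linarith
    refine hl_fin ht (hl_aux ht hq0 h3 h) ?_
    nlinarith [mul_nonneg (by linarith : (0 : ℝ) ≤ 11 / 20 - q) (by linarith : (0 : ℝ) ≤ 4 * t - 3),
      mul_nonneg (by linarith : (0 : ℝ) ≤ 11 / 20 - q) (by linarith : (0 : ℝ) ≤ 1 - t),
      mul_nonneg (by linarith : (0 : ℝ) ≤ 4 * t - 3) (by linarith : (0 : ℝ) ≤ 1 - t),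
      mul_nonneg (mul_nonneg (by linarith : (0 : ℝ) ≤ 11 / 20 - q)
        (by linarith : (0 : ℝ) ≤ 4 * t - 3)) (by linarith : (0 : ℝ) ≤ 1 - t)]

/-- HL, `Lam = 5/4`, `t ≤ 1/3`, `f (1+t) ≥ t` -/
theorem hl_54 {t w q f : ℝ} (ht : 0 < t) (ht1 : 3 * t ≤ 1) (hq0 : 0 ≤ q) (hq : q ≤ 1 / 2)
    (hf : t ≤ f * (1 + t)) (h : f * (1 + t) * (1 + q) ≤ (1 + t) - w - t * q) :
    5 / 4 * q ≤ 3 / 2 * (1 - t / (2 + t) / 6) * (2 - w - q) := by
  have hA : 1 + 2 * t * q - q ≤ 2 - w - q := by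
    have := mul_le_mul_of_nonneg_right hf (by linarith : (0 : ℝ) ≤ 1 + q)
    nlinarith
  refine hl_fin ht hA ?_
  nlinarith [mul_nonneg (by linarith : (0 : ℝ) ≤ 1 / 2 - q) (by linarith : (0 : ℝ) ≤ 1 - 3 * t),
    mul_nonneg ht.le (by linarith : (0 : ℝ) ≤ 1 - 3 * t), mul_nonneg ht.le hq0,
    mul_nonneg (mul_nonneg ht.le hq0) (by linarith : (0 : ℝ) ≤ 1 - 3 * t)]

/-- INV, general: from `q > c` one gets `4(1+t)c² ≤ w D(c)`. -/
theorem inv_aux {t w q c : ℝ} (ht : 0 < t) (hc : 0 < c) (hc1 : c ≤ 1) (hcq : c ≤ q) (hq1 : q ≤ 1)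
    (hw : 0 ≤ w)
    (h : 4 * (1 + t) * q ^ 2 ≤ w * ((2 + t) ^ 2 * q ^ 2 - 2 * t * (1 + t) * q + t * (2 + t))) :
    4 * (1 + t) * c ^ 2 ≤ w * ((2 + t) ^ 2 * c ^ 2 - 2 * t * (1 + t) * c + t * (2 + t)) := by
  have hq0 : 0 < q := by linarith
  have h1 : c ^ 2 * ((2 + t) ^ 2 * q ^ 2 - 2 * t * (1 + t) * q + t * (2 + t)) ≤
      q ^ 2 * ((2 + t) ^ 2 * c ^ 2 - 2 * t * (1 + t) * c + t * (2 + t)) := by
    have e : q ^ 2 * ((2 + t) ^ 2 * c ^ 2 - 2 * t * (1 + t) * c + t * (2 + t)) -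
        c ^ 2 * ((2 + t) ^ 2 * q ^ 2 - 2 * t * (1 + t) * q + t * (2 + t)) =
        t * (q - c) * (q + c + (1 + t) * (q * (1 - c) + c * (1 - q))) := by ring
    have h2 : 0 ≤ t * (q - c) * (q + c + (1 + t) * (q * (1 - c) + c * (1 - q))) := by
      have a1 : 0 ≤ q - c := by linarith
      have a2 : 0 ≤ 1 - c := by linarith
      have a3 : 0 ≤ 1 - q := by linarith
      positivity
    linarith
  have h3 : c ^ 2 * (4 * (1 + t) * q ^ 2) ≤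
      c ^ 2 * (w * ((2 + t) ^ 2 * q ^ 2 - 2 * t * (1 + t) * q + t * (2 + t))) :=
    mul_le_mul_of_nonneg_left h (by positivity)
  have h4 : w * (c ^ 2 * ((2 + t) ^ 2 * q ^ 2 - 2 * t * (1 + t) * q + t * (2 + t))) ≤
      w * (q ^ 2 * ((2 + t) ^ 2 * c ^ 2 - 2 * t * (1 + t) * c + t * (2 + t))) :=
    mul_le_mul_of_nonneg_left h1 hw
  have h5 : 4 * (1 + t) * c ^ 2 * q ^ 2 ≤
      w * ((2 + t) ^ 2 * c ^ 2 - 2 * t * (1 + t) * c + t * (2 + t)) * q ^ 2 := by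
    nlinarith [h3, h4]
  exact le_of_mul_le_mul_right h5 (by positivity)

/-- invariant, `t ≤ 1/3` (and more): `q ≤ 1/2` -/
theorem inv_12 {t w q f : ℝ} (ht : 0 < t) (hq1 : q ≤ 1) (hw : 0 ≤ w)
    (hf : t ≤ f * (1 + t)) (hr : f * (1 + t) * (1 + q) ≤ (1 + t) - w - t * q)
    (h : 4 * (1 + t) * q ^ 2 ≤ w * ((2 + t) ^ 2 * q ^ 2 - 2 * t * (1 + t) * q + t * (2 + t))) :
    q < 1 / 2 := by
  by_contra hcon
  push Not at hcon
  have h1 := inv_aux ht (by norm_num) (by norm_num) hcon hq1 hw h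
  have h2 := mul_le_mul_of_nonneg_right hf (by linarith : (0 : ℝ) ≤ 1 + q)
  have h3 : w ≤ 1 - t := by nlinarith
  have h4 := mul_le_mul_of_nonneg_right h3
    (le_of_lt (D_pos (q := 1 / 2) ht))
  nlinarith [mul_pos ht ht, mul_pos (mul_pos ht ht) ht]

theorem inv_fin {t w q f f0 : ℝ} (ht : 0 < t) (hq1 : q ≤ 1) (hw : 0 ≤ w) (hff : f0 ≤ f)
    (hf0 : 0 ≤ f0)
    (hr : f * (1 + t) * (1 + q) ≤ (1 + t) - w - t * q)
    (h : 4 * (1 + t) * q ^ 2 ≤ w * ((2 + t) ^ 2 * q ^ 2 - 2 * t * (1 + t) * q + t * (2 + t)))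
    (hc : ((1 + t) * (1 - 31 / 20 * f0) - 11 / 20 * t) *
      (121 / 100 + 211 / 100 * t + 81 / 400 * t ^ 2) < 121 / 100 * (1 + t)) :
    q ≤ 11 / 20 := by
  by_contra hcon
  push Not at hcon
  have h1 := inv_aux ht (by norm_num : (0 : ℝ) < 11 / 20) (by norm_num) hcon.le hq1 hw h
  have h2 : f0 * ((1 + t) * (1 + q)) ≤ f * ((1 + t) * (1 + q)) :=
    mul_le_mul_of_nonneg_right hff (by positivity)
  have h5 : f0 * (1 + t) * (11 / 20) ≤ f0 * (1 + t) * q :=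
    mul_le_mul_of_nonneg_left hcon.le (by positivity)
  have h6 : t * (11 / 20) ≤ t * q := mul_le_mul_of_nonneg_left hcon.le ht.le
  have h3 : w ≤ (1 + t) * (1 - 31 / 20 * f0) - 11 / 20 * t := by nlinarith
  have h4 := mul_le_mul_of_nonneg_right h3
    (by positivity : (0 : ℝ) ≤ 121 / 100 + 211 / 100 * t + 81 / 400 * t ^ 2)
  nlinarith

/-- invariant, `t ∈ [1/3, 1]`: `q ≤ 11/20` -/
theorem inv_1120 {t w q f : ℝ} (hq1 : q ≤ 1) (hw : 0 ≤ w) (hf : FC t f)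
    (hr : f * (1 + t) * (1 + q) ≤ (1 + t) - w - t * q)
    (h : 4 * (1 + t) * q ^ 2 ≤ w * ((2 + t) ^ 2 * q ^ 2 - 2 * t * (1 + t) * q + t * (2 + t))) :
    q ≤ 11 / 20 := by
  rcases hf with ⟨h1, h2, h3⟩ | ⟨h1, h2, h3⟩ | ⟨h1, h2, h3⟩ | ⟨h1, h2, h3⟩
  · have ht : 0 < t := by linarith
    refine inv_fin ht hq1 hw h3 (by norm_num) hr h ?_
    nlinarith [mul_nonneg (by linarith : (0 : ℝ) ≤ 3 * t - 1) (by linarith : (0 : ℝ) ≤ 3 - 7 * t),
      mul_nonneg ht.le (by linarith : (0 : ℝ) ≤ 3 - 7 * t),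
      mul_nonneg (mul_nonneg ht.le ht.le) (by linarith : (0 : ℝ) ≤ 3 - 7 * t)]
  · have ht : 0 < t := by linarith
    refine inv_fin ht hq1 hw h3 (by norm_num) hr h ?_
    nlinarith [mul_nonneg (by linarith : (0 : ℝ) ≤ 7 * t - 3) (by linarith : (0 : ℝ) ≤ 1 - 2 * t),
      mul_nonneg ht.le (by linarith : (0 : ℝ) ≤ 1 - 2 * t),
      mul_nonneg (mul_nonneg ht.le ht.le) (by linarith : (0 : ℝ) ≤ 1 - 2 * t)]
  · have ht : 0 < t := by linarith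
    refine inv_fin ht hq1 hw h3 (by norm_num) hr h ?_
    nlinarith [mul_nonneg (by linarith : (0 : ℝ) ≤ 2 * t - 1) (by linarith : (0 : ℝ) ≤ 3 - 4 * t),
      mul_nonneg ht.le (by linarith : (0 : ℝ) ≤ 3 - 4 * t),
      mul_nonneg (mul_nonneg ht.le ht.le) (by linarith : (0 : ℝ) ≤ 3 - 4 * t)]
  · have ht : 0 < t := by linarith
    refine inv_fin ht hq1 hw h3 (by norm_num) hr h ?_
    nlinarith [mul_nonneg (by linarith : (0 : ℝ) ≤ 4 * t - 3) (by linarith : (0 : ℝ) ≤ 1 - t),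
      mul_nonneg ht.le (by linarith : (0 : ℝ) ≤ 1 - t),
      mul_nonneg (mul_nonneg ht.le ht.le) (by linarith : (0 : ℝ) ≤ 1 - t)]

/-! ### The final forms, real `k`, `T` (casts), `m = 2k + T` -/

/-- which lower bound `f` of the fraction `f_T(k+T)` is available: `T ≤ k/3`: MMS `T/(k+T)`; `T/k < 3/7`: `9/49`;
`T/k < 1/2`: `1/5`; `T/k < 3/4`: `9/40`; `T/k ≤ 1`: `1/4`. -/
def FK (k T f : ℝ) : Prop :=
  (3 * T ≤ k ∧ T ≤ f * (k + T)) ∨ (k < 3 * T ∧ 7 * T ≤ 3 * k ∧ 9 / 49 ≤ f) ∨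
    (3 * k ≤ 7 * T ∧ 2 * T ≤ k ∧ 1 / 5 ≤ f) ∨ (k ≤ 2 * T ∧ 4 * T ≤ 3 * k ∧ 9 / 40 ≤ f) ∨
    (3 * k ≤ 4 * T ∧ T ≤ k ∧ 1 / 4 ≤ f)

/-- the constant of the chain: `5/4` for `T ≤ k/3`, `8/5` else -/
noncomputable def Lam (k T : ℝ) : ℝ := if 3 * T ≤ k then 5 / 4 else 8 / 5

/-- the bound of the invariant: `1/2` for `T ≤ k/3`, `11/20` else (`p ≥ (1-q)/2 ≥ 1/4`, `9/40`) -/
noncomputable def Qmax (k T : ℝ) : ℝ := if 3 * T ≤ k then 1 / 2 else 11 / 20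

theorem Lam_pos (k T : ℝ) : 0 < Lam k T := by
  unfold Lam
  split <;> norm_num

/-- (RF) with `r`: `f (1 + q - r) ≤ (1 - w - r) + T/(k+T) (w - q)` gives the case `r = 0`, cleared. -/
theorem rf_zero {k T w q r f : ℝ} (hk : 0 < k) (hT : 0 < T) (hr : 0 ≤ r) (hf : f ≤ 1)
    (h : f * (1 + q - r) ≤ (1 - w - r) + T / (k + T) * (w - q)) :
    f * (k + T) * (1 + q) ≤ (k + T) - k * w - T * q := by
  have h2 : (0 : ℝ) < k + T := by linarith
  have h3 := mul_le_mul_of_nonneg_right h h2.le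
  have e : ((1 - w - r) + T / (k + T) * (w - q)) * (k + T) =
      (1 - w - r) * (k + T) + T * (w - q) := by
    field_simp
  rw [e] at h3
  have h4 : 0 ≤ r * (1 - f) * (k + T) := mul_nonneg (mul_nonneg hr (by linarith)) h2.le
  nlinarith

/-- (SP) with `r`, as NR2 of `MP_9999b5_sp` states it, gives (SP) with `r = 0` (this is RBZ with `t = T/(2k+T)`). -/
theorem sp_zero {t w q r : ℝ} (ht : 0 < t) (ht1 : t < 1) (hq0 : 0 ≤ q) (hqw : q ≤ w) (hw1 : w ≤ 1)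
    (hr : 0 ≤ r) (hrw : r ≤ 1 - w)
    (h : (1 - w) * q ^ 2 + w * r ^ 2 ≤ w * (1 - w) * ((q - r) ^ 2 +
      t / (2 * (1 + t)) * (1 - (q - r) ^ 2) + t / (2 * (1 - t)) * ((1 - q + r) ^ 2 - 4 * r))) :
    q ^ 2 * (1 - t ^ 2) ≤ w * (q ^ 2 - t * (1 + t) * q + t) := by
  have p1 : (0 : ℝ) < 1 + t := by linarith
  have p2 : (0 : ℝ) < 1 - t := by linarith
  -- clear the denominators: multiply by `1 - t²`
  have e1 : (1 - t ^ 2) * ((q - r) ^ 2 + t / (2 * (1 + t)) * (1 - (q - r) ^ 2) +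
      t / (2 * (1 - t)) * ((1 - q + r) ^ 2 - 4 * r)) =
      (q - r) ^ 2 + t - t * (1 + t) * (q + r) := by
    have : (1 - t ^ 2) = (1 + t) * (1 - t) := by ring
    rw [this]
    field_simp
    ring
  have hp : (0 : ℝ) < 1 - t ^ 2 := by nlinarith
  have h1 : (1 - t ^ 2) * ((1 - w) * q ^ 2 + w * r ^ 2) ≤
      w * (1 - w) * ((q - r) ^ 2 + t - t * (1 + t) * (q + r)) := by
    have := mul_le_mul_of_nonneg_left h hp.le
    calc (1 - t ^ 2) * ((1 - w) * q ^ 2 + w * r ^ 2) ≤ _ := this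
      _ = w * (1 - w) * ((1 - t ^ 2) * ((q - r) ^ 2 + t / (2 * (1 + t)) * (1 - (q - r) ^ 2) +
        t / (2 * (1 - t)) * ((1 - q + r) ^ 2 - 4 * r))) := by ring
      _ = _ := by rw [e1]
  rcases eq_or_lt_of_le hw1 with hw | hw
  · subst hw
    have h3 : 0 ≤ t * ((1 - q) * (1 - t * q)) :=
      mul_nonneg ht.le (mul_nonneg (by linarith) (by nlinarith))
    nlinarith
  · have hw0 : 0 ≤ w := by linarith
    have hl : 0 < 1 - w := by linarith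
    -- r² term: `(1-t²) w r² ≥ (1-t²) w (1-w) r²`
    have h3 : (1 - t ^ 2) * (w * (1 - w) * r ^ 2) ≤ (1 - t ^ 2) * (w * r ^ 2) := by
      apply mul_le_mul_of_nonneg_left _ hp.le
      nlinarith [mul_nonneg hw0 (sq_nonneg r), mul_nonneg hw0 hw0,
        mul_nonneg (mul_nonneg hw0 hw0) (sq_nonneg r)]
    have hr1 : r ≤ 1 := by linarith
    have h4 : 0 ≤ r * (2 * q + t * (1 + t) - t ^ 2 * r) := by
      apply mul_nonneg hr
      nlinarith [mul_nonneg (sq_nonneg t) (by linarith : (0 : ℝ) ≤ 1 - r)]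
    have h5 : (1 - w) * (q ^ 2 * (1 - t ^ 2)) ≤ (1 - w) * (w * (q ^ 2 - t * (1 + t) * q + t)) := by
      have h6 := mul_nonneg (mul_nonneg hw0 hl.le) h4
      nlinarith [h1, h3, h6]
    exact le_of_mul_le_mul_left h5 hl

theorem tdiv {k T : ℝ} (hk : 0 < k) (hT : 0 < T) : T / k / (2 + T / k) = T / (2 * k + T) := by
  have h1 : (0 : ℝ) < 2 * k + T := by linarith
  have h2 : (0 : ℝ) < 2 + T / k := by positivity
  field_simp

/-- INVARIANT: `q ≤ 1/2` (`T ≤ k/3`), `q ≤ 11/20` (else) -/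
theorem scal_inv {k T w q f : ℝ} (hk : 0 < k) (hT : 0 < T) (hq0 : 0 ≤ q)
    (hqw : q ≤ w) (hw1 : w ≤ 1) (hf : FK k T f)
    (hsp : q ^ 2 * (1 - (T / (2 * k + T)) ^ 2) ≤
      w * (q ^ 2 - T / (2 * k + T) * (1 + T / (2 * k + T)) * q + T / (2 * k + T)))
    (hrf : f * (k + T) * (1 + q) ≤ (k + T) - k * w - T * q) : q ≤ Qmax k T := by
  have ht : 0 < T / k := by positivity
  have hsp' := sp_t (t := T / k) (w := w) (q := q) ht (by rw [tdiv hk hT]; exact hsp)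
  have e1 : (1 + T / k) = (k + T) / k := by field_simp
  have hrf' : f * (1 + T / k) * (1 + q) ≤ (1 + T / k) - w - T / k * q := by
    have : ((1 + T / k) - w - T / k * q) = ((k + T) - k * w - T * q) / k := by field_simp
    rw [this, le_div_iff₀ hk, e1]
    have : f * ((k + T) / k) * (1 + q) * k = f * (k + T) * (1 + q) := by field_simp
    rw [this]
    exact hrf
  have hw0 : 0 ≤ w := by linarith
  unfold Qmax
  rcases hf with ⟨a, b⟩ | hf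
  · rw [if_pos a]
    refine le_of_lt (inv_12 ht (by linarith) hw0 ?_ hrf' hsp')
    rw [e1, ← mul_div_assoc, div_le_div_iff_of_pos_right hk]
    exact b
  · have hk' : ∀ a b : ℝ, a * k ≤ b * T → a ≤ b * (T / k) := by
      intro a b h
      rw [← mul_div_assoc, le_div_iff₀ hk]
      exact h
    have hk'' : ∀ a b : ℝ, b * T ≤ a * k → b * (T / k) ≤ a := by
      intro a b h
      rw [← mul_div_assoc, div_le_iff₀ hk]
      exact h
    have hFC : FC (T / k) f := by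
      rcases hf with ⟨a, b, c⟩ | ⟨a, b, c⟩ | ⟨a, b, c⟩ | ⟨a, b, c⟩
      · exact Or.inl ⟨hk' 1 3 (by linarith), hk'' 3 7 (by linarith), c⟩
      · exact Or.inr (Or.inl ⟨hk' 3 7 (by linarith), hk'' 1 2 (by linarith), c⟩)
      · exact Or.inr (Or.inr (Or.inl ⟨hk' 1 2 (by linarith), hk'' 3 4 (by linarith), c⟩))
      · exact Or.inr (Or.inr (Or.inr ⟨hk' 3 4 (by linarith), by
          rw [div_le_one hk]; exact b, c⟩))
    have hn : ¬ 3 * T ≤ k := by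
      rcases hf with ⟨a, b, c⟩ | ⟨a, b, c⟩ | ⟨a, b, c⟩ | ⟨a, b, c⟩ <;> intro h <;> linarith
    rw [if_neg hn]
    exact inv_1120 (by linarith) hw0 hFC hrf' hsp'

/-- (QL) with `Lam` -/
theorem scal_ql {k T w q : ℝ} (hk : 0 < k) (hT : 0 < T) (hTk : T ≤ k)
    (hqw : q ≤ w) (hq : q ≤ Qmax k T)
    (hsp : q ^ 2 * (1 - (T / (2 * k + T)) ^ 2) ≤
      w * (q ^ 2 - T / (2 * k + T) * (1 + T / (2 * k + T)) * q + T / (2 * k + T))) :
    q - T / (2 * k + T) ≤ Lam k T * (w - q) := by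
  have ht : 0 < T / k := by positivity
  have hsp' := sp_t (t := T / k) (w := w) (q := q) ht (by rw [tdiv hk hT]; exact hsp)
  unfold Lam
  unfold Qmax at hq
  rw [← tdiv hk hT]
  split_ifs with h
  · rw [if_pos h] at hq
    refine ql_54 ht ?_ hqw hq hsp'
    rw [← mul_div_assoc, div_le_one hk]
    exact h
  · rw [if_neg h] at hq
    refine ql_85 ht ?_ hqw hq hsp'
    rw [div_le_one hk]
    exact hTk

/-- (HL) with `Lam` -/
theorem scal_hl {k T w q f : ℝ} (hk : 0 < k) (hT : 0 < T) (hq0 : 0 ≤ q)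
    (hq : q ≤ Qmax k T) (hf : FK k T f)
    (hrf : f * (k + T) * (1 + q) ≤ (k + T) - k * w - T * q) :
    Lam k T * q ≤ 3 / 2 * (1 - T / (2 * k + T) / 6) * (2 - w - q) := by
  have ht : 0 < T / k := by positivity
  have e1 : (1 + T / k) = (k + T) / k := by field_simp
  have hrf' : f * (1 + T / k) * (1 + q) ≤ (1 + T / k) - w - T / k * q := by
    have : ((1 + T / k) - w - T / k * q) = ((k + T) - k * w - T * q) / k := by field_simp
    rw [this, le_div_iff₀ hk, e1]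
    have : f * ((k + T) / k) * (1 + q) * k = f * (k + T) * (1 + q) := by field_simp
    rw [this]
    exact hrf
  unfold Lam
  unfold Qmax at hq
  rw [← tdiv hk hT]
  rcases hf with ⟨a, b⟩ | hf
  · rw [if_pos a]
    rw [if_pos a] at hq
    refine hl_54 (f := f) ht ?_ hq0 hq ?_ hrf'
    · rw [← mul_div_assoc, div_le_one hk]
      exact a
    · rw [e1, ← mul_div_assoc, div_le_div_iff_of_pos_right hk]
      exact b
  · have hk' : ∀ a b : ℝ, a * k ≤ b * T → a ≤ b * (T / k) := by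
      intro a b h
      rw [← mul_div_assoc, le_div_iff₀ hk]
      exact h
    have hk'' : ∀ a b : ℝ, b * T ≤ a * k → b * (T / k) ≤ a := by
      intro a b h
      rw [← mul_div_assoc, div_le_iff₀ hk]
      exact h
    have hFC : FC (T / k) f := by
      rcases hf with ⟨a, b, c⟩ | ⟨a, b, c⟩ | ⟨a, b, c⟩ | ⟨a, b, c⟩
      · exact Or.inl ⟨hk' 1 3 (by linarith), hk'' 3 7 (by linarith), c⟩
      · exact Or.inr (Or.inl ⟨hk' 3 7 (by linarith), hk'' 1 2 (by linarith), c⟩)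
      · exact Or.inr (Or.inr (Or.inl ⟨hk' 1 2 (by linarith), hk'' 3 4 (by linarith), c⟩))
      · exact Or.inr (Or.inr (Or.inr ⟨hk' 3 4 (by linarith), by
          rw [div_le_one hk]; exact b, c⟩))
    have hn : ¬ 3 * T ≤ k := by
      rcases hf with ⟨a, b, c⟩ | ⟨a, b, c⟩ | ⟨a, b, c⟩ | ⟨a, b, c⟩ <;> intro h <;> linarith
    rw [if_neg hn]
    rw [if_neg hn] at hq
    exact hl_85 hq0 hq hFC hrf'

end Pool.Agent.Work.MP_9999b5_sc
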